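import Pool.Agent.W174.SG.Fun2

set_option autoImplicit false

open Filter Topology Metric Set
open Pool.Agent.W757.SG

namespace Pool.Agent.W174.SG

/-- inverse of `u ↦ K u - 2 u` -/
theorem local_inv (K : ℂ → ℂ) (r : ℝ) (hr : 0 < r) (hK : Differentiable ℂ K)
    (hM : ∀ u, ‖u‖ ≤ 2 * r → ‖K u‖ ≤ 1 / 2 * r) :
    ∃ U : ℂ → ℂ, DifferentiableOn ℂ U (ball 0 r) ∧ MapsTo U (ball 0 r) (ball 0 r) ∧
      (∀ y ∈ ball (0:ℂ) r, K (U y) - 2 * U y = y) ∧
      ∀ u ∈ ball (0:ℂ) r, K u - 2 * u ∈ ball (0:ℂ) r → U (K u - 2 * u) = u := by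
  have hd : ∀ u, ‖u‖ ≤ r → ‖deriv K u‖ ≤ 1 / 2 := by
    intro u hu
    have := Complex.norm_deriv_le_of_forall_mem_sphere_norm_le (c := u) (C := 1 / 2 * r) hr
      hK.diffContOnCl (fun z hz => hM z (by
        rw [mem_sphere, dist_eq_norm] at hz
        have := norm_add_le u (z - u)
        rw [add_sub_cancel] at this
        linarith))
    rwa [mul_div_assoc, div_self hr.ne', mul_one] at this
  have hlip : ∀ u v, ‖u‖ ≤ r → ‖v‖ ≤ r → ‖K u - K v‖ ≤ 1 / 2 * ‖u - v‖ := by
    intro u v hu hv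
    exact Convex.norm_image_sub_le_of_norm_deriv_le (s := closedBall (0:ℂ) r)
      (fun x _ => hK x) (fun x hx => hd x (by simpa using hx)) (convex_closedBall 0 r)
      (by simpa using hv) (by simpa using hu)
  have hinj : ∀ u v, ‖u‖ ≤ r → ‖v‖ ≤ r → ‖u - v‖ ≤ ‖(K u - 2 * u) - (K v - 2 * v)‖ := by
    intro u v hu hv
    have h1 := hlip u v hu hv
    have h2 : 2 * (u - v) = (K u - K v) - ((K u - 2 * u) - (K v - 2 * v)) := by ring
    have h3 := norm_sub_le (K u - K v) ((K u - 2 * u) - (K v - 2 * v))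
    rw [← h2, norm_mul] at h3
    norm_num at h3
    linarith [norm_nonneg (u - v)]
  have hex : ∀ y : ℂ, ∃ u : ℂ, ‖y‖ < r → ‖u‖ < r ∧ K u - 2 * u = y := by
    intro y
    by_cases hy : ‖y‖ < r
    · let G : ℂ → ℂ := fun u => (K u - y) / 2
      have hmap : ∀ u, ‖u‖ ≤ r → ‖G u‖ ≤ 3 / 4 * r := by
        intro u hu
        have h1 := hM u (by linarith)
        have h2 := norm_sub_le (K u) y
        have : ‖G u‖ = ‖K u - y‖ / 2 := by simp [G]
        rw [this]; linarith
      have hmaps : MapsTo G (closedBall 0 r) (closedBall 0 r) := by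
        intro u hu
        have := hmap u (by simpa using hu)
        rw [mem_closedBall, dist_zero_right]
        linarith
      have hcon : ContractingWith (1 / 4) (hmaps.restrict G _ _) := by
        refine ⟨by
          rw [← NNReal.coe_lt_coe]; norm_num, ?_⟩
        apply LipschitzWith.of_dist_le_mul
        rintro ⟨u, hu⟩ ⟨v, hv⟩
        have h1 := hlip u v (by simpa using hu) (by simpa using hv)
        change dist (G u) (G v) ≤ _ * dist u v
        rw [dist_eq_norm, dist_eq_norm]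
        have : G u - G v = (K u - K v) / 2 := by simp only [G]; ring
        rw [this, norm_div]
        norm_num
        linarith
      obtain ⟨u, hu, hfix, -⟩ := hcon.exists_fixedPoint' isClosed_closedBall.isComplete
        hmaps (x := 0) (by simp [hr.le]) (edist_ne_top _ _)
      have hu' : ‖u‖ ≤ r := by simpa using hu
      have hfix' : (K u - y) / 2 = u := hfix
      refine ⟨u, fun _ => ⟨?_, ?_⟩⟩
      · have := hmap u hu'
        have h2 : G u = u := hfix
        rw [h2] at this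
        linarith
      · have : K u - y = 2 * u := by linear_combination 2 * hfix'
        linear_combination this
    · exact ⟨0, fun h => absurd h hy⟩
  choose U hU using hex
  have hUb : ∀ y ∈ ball (0:ℂ) r, ‖U y‖ < r ∧ K (U y) - 2 * U y = y := fun y hy =>
    hU y (by simpa using hy)
  have hUlip : ∀ y ∈ ball (0:ℂ) r, ∀ y' ∈ ball (0:ℂ) r, ‖U y - U y'‖ ≤ ‖y - y'‖ := by
    intro y hy y' hy'
    have := hinj (U y) (U y') (hUb y hy).1.le (hUb y' hy').1.le
    rwa [(hUb y hy).2, (hUb y' hy').2] at this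
  refine ⟨U, ?_, fun y hy => by simpa using (hUb y hy).1, fun y hy => (hUb y hy).2, ?_⟩
  · intro y hy
    have hcont : ContinuousAt U y := by
      rw [Metric.continuousAt_iff]
      intro ε hε
      obtain ⟨η, hη, hηb⟩ := Metric.isOpen_iff.1 isOpen_ball y hy
      refine ⟨min ε η, lt_min hε hη, fun {x} hx => ?_⟩
      rw [dist_eq_norm]
      have hx' : x ∈ ball (0:ℂ) r := hηb (lt_of_lt_of_le hx (min_le_right _ _))
      refine (hUlip x hx' y hy).trans_lt ?_
      rw [← dist_eq_norm]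
      exact lt_of_lt_of_le hx (min_le_left _ _)
    have hder : HasDerivAt (fun u => K u - 2 * u) (deriv K (U y) - 2) (U y) := by
      have h1 := (hK (U y)).hasDerivAt
      have h2 : HasDerivAt (fun u : ℂ => 2 * u) 2 (U y) := by
        simpa using (hasDerivAt_id (U y)).const_mul (2:ℂ)
      exact h1.sub h2
    have hne : deriv K (U y) - 2 ≠ 0 := by
      intro h
      have h1 := hd (U y) (hUb y hy).1.le
      rw [sub_eq_zero.1 h] at h1
      norm_num at h1
    exact (HasDerivAt.of_local_left_inverse hcont hder hne (by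
      filter_upwards [isOpen_ball.mem_nhds hy] with x hx
      exact (hUb x hx).2)).differentiableAt.differentiableWithinAt
  · intro u hu hmem
    have h1 := hUb _ hmem
    have h2 := hinj (U (K u - 2 * u)) u h1.1.le (by simpa using (mem_ball.1 hu).le)
    rw [h1.2, sub_self, norm_zero] at h2
    exact sub_eq_zero.1 (norm_le_zero_iff.1 h2)

theorem one_add_pow_sub (u : ℂ) (n : ℕ) : ‖(1 + u) ^ n - 1‖ ≤ (1 + ‖u‖) ^ n - 1 := by
  induction n with
  | zero => simp
  | succ n ih =>
    have e : (1 + u) ^ (n + 1) - 1 = (1 + u) * ((1 + u) ^ n - 1) + u := by ring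
    have h1 : ‖1 + u‖ ≤ 1 + ‖u‖ := (norm_add_le _ _).trans (by rw [norm_one])
    rw [e]
    calc _ ≤ ‖1 + u‖ * ‖(1 + u) ^ n - 1‖ + ‖u‖ := (norm_add_le _ _).trans (by rw [norm_mul])
      _ ≤ (1 + ‖u‖) * ((1 + ‖u‖) ^ n - 1) + ‖u‖ := by gcongr
      _ = _ := by ring

theorem fun3 (h : StFUN1) : StFUN3 := by
  intro b k
  have ha := aa_pos k
  have hp := pp_pos k
  have he := ee_ge k
  have hcn := norm_cc b k
  have hc0 : cc b k ≠ 0 := by
    rw [← norm_pos_iff, hcn]; exact ha
  set c := cc b k with hc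
  set e := ee k with hee
  set r : ℝ := 1 / (20 * e) with hr
  have hr0 : 0 < r := by positivity
  have hre : r * (20 * e) = 1 := by rw [hr]; field_simp
  have hr1 : r ≤ 1 / 4000 := by
    rw [hr]; apply one_div_le_one_div_of_le (by norm_num); linarith
  have hsg : sg k = pp k * aa k ^ e * r := by
    rw [hr]; unfold sg; rw [← hee]; field_simp
  have hdl : dl k = aa k * r := by
    rw [hr]; unfold dl; rw [← hee]; field_simp
  -- the normalising constant
  set A : ℂ := pp k * c ^ e with hA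
  have hA0 : A ≠ 0 := mul_ne_zero (by exact_mod_cast hp.ne') (pow_ne_zero _ hc0)
  have hAn : ‖A‖ = pp k * aa k ^ e := by
    rw [hA, norm_mul, norm_pow, hcn, Complex.norm_real, Real.norm_of_nonneg hp.le]
  let K : ℂ → ℂ := fun u => ff (c * (1 + u)) / A + 2 * u
  have hKd : Differentiable ℂ K := by
    have h1 : Differentiable ℂ fun u : ℂ => c * (1 + u) := by fun_prop
    have h2 : Differentiable ℂ fun u : ℂ => ff (c * (1 + u)) := h.1.comp h1
    exact (h2.div_const A).add (by fun_prop)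
  have hac : ((aa k : ℝ) : ℂ) ≠ 0 := by exact_mod_cast ha.ne'
  have hKb : ∀ u, ‖u‖ ≤ 2 * r → ‖K u‖ ≤ 1 / 2 * r := by
    intro u hu
    have hpow : (1 + ‖u‖) ^ e ≤ 10 / 9 := by
      have h1 : 1 + ‖u‖ ≤ Real.exp ‖u‖ := by linarith [Real.add_one_le_exp ‖u‖]
      calc (1 + ‖u‖) ^ e ≤ Real.exp ‖u‖ ^ e := pow_le_pow_left₀ (by positivity) h1 _
        _ = Real.exp (e * ‖u‖) := by rw [← Real.exp_nat_mul]
        _ ≤ Real.exp (1 / 10) := by
          apply Real.exp_le_exp.2
          have : (e:ℝ) * ‖u‖ ≤ e * (2 * r) := by gcongr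
          linarith
        _ ≤ 10 / 9 := by
          have h2 := Real.add_one_le_exp (-(1 / 10 : ℝ))
          rw [Real.exp_neg] at h2
          have h3 := Real.exp_pos (1 / 10 : ℝ)
          have h4 : (Real.exp (1 / 10))⁻¹ * Real.exp (1 / 10) = 1 := inv_mul_cancel₀ h3.ne'
          nlinarith
    have hpow2 : ‖(1 + u) ^ e - 1‖ ≤ 1 / 9 := (one_add_pow_sub u e).trans (by linarith)
    have h1u : ‖1 + u‖ ≤ 1 + ‖u‖ := (norm_add_le _ _).trans (by rw [norm_one])
    have hpow3 : ‖(1 + u) ^ e‖ ≤ 10 / 9 := by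
      rw [norm_pow]
      exact (pow_le_pow_left₀ (norm_nonneg _) h1u _).trans hpow
    set z := c * (1 + u) with hz
    have hzc : ‖z - c‖ ≤ 2 * dl k := by
      have : z - c = c * u := by rw [hz]; ring
      rw [this, norm_mul, hcn, hdl]
      nlinarith
    obtain ⟨d1, d2, -, -⟩ := disc (b := b) (k := k) (z := z) hzc
    have herr := h.2.2.1 k z d1 d2
    have hTT : TT k z = A * ((1 + u) ^ e * (-2 * u - u ^ 2)) := by
      unfold TT
      have hc2 : c ^ 2 = -(aa k : ℂ) ^ 2 := cc_sq b k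
      have e1 : 1 + z ^ 2 / (aa k : ℂ) ^ 2 = -2 * u - u ^ 2 := by
        rw [hz, mul_pow, hc2]
        field_simp
        ring
      rw [e1, hA, hz, mul_pow]
      ring
    have hK : K u = ((1 + u) ^ e - 1) * (-2 * u) - (1 + u) ^ e * u ^ 2 +
        (ff z - TT k z) / A := by
      simp only [K]
      rw [← hz, hTT]
      field_simp
      ring
    have herr2 : ‖(ff z - TT k z) / A‖ ≤ 1 / 100 * r := by
      rw [norm_div, hAn, div_le_iff₀ (by positivity)]
      refine herr.trans ?_
      have e2 : ‖z‖ ^ e ≤ aa k ^ e * (10 / 9) := by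
        rw [hz, norm_mul, hcn, mul_pow, ← norm_pow]
        gcongr
      have e3 : 1 / (1000 * (e : ℝ) ^ 2) ≤ 1 / 10000 * r := by
        have : 1 / (1000 * (e : ℝ) ^ 2) = r * (20 / 1000 * (1 / e)) := by
          rw [hr]; field_simp
        rw [this]
        have h5 : 1 / (e:ℝ) ≤ 1 / 200 := one_div_le_one_div_of_le (by norm_num) he
        nlinarith
      calc 1 / (1000 * (e : ℝ) ^ 2) * (pp k * ‖z‖ ^ e)
          ≤ (1 / 10000 * r) * (pp k * (aa k ^ e * (10 / 9))) := by gcongr
        _ ≤ 1 / 100 * r * (pp k * aa k ^ e) := by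
          have : 0 < r * (pp k * aa k ^ e) := by positivity
          nlinarith
    rw [hK]
    have n1 : ‖((1 + u) ^ e - 1) * (-2 * u)‖ ≤ 1 / 9 * (2 * (2 * r)) := by
      rw [norm_mul, norm_mul]
      norm_num
      gcongr
    have n2 : ‖(1 + u) ^ e * u ^ 2‖ ≤ 10 / 9 * (2 * r) ^ 2 := by
      rw [norm_mul, norm_pow u]
      gcongr
    calc _ ≤ ‖((1 + u) ^ e - 1) * (-2 * u)‖ + ‖(1 + u) ^ e * u ^ 2‖ + ‖(ff z - TT k z) / A‖ :=
          (norm_add_le _ _).trans (by gcongr; exact norm_sub_le _ _)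
      _ ≤ 1 / 9 * (2 * (2 * r)) + 10 / 9 * (2 * r) ^ 2 + 1 / 100 * r := by gcongr
      _ ≤ 1 / 2 * r := by nlinarith
  obtain ⟨U, U1, U2, U3, U4⟩ := local_inv K r hr0 hKd hKb
  have hKsub : ∀ u, K u - 2 * u = ff (c * (1 + u)) / A := fun u => by simp only [K]; ring
  have hscale : ∀ w ∈ ball (0:ℂ) (sg k), w / A ∈ ball (0:ℂ) r := by
    intro w hw
    rw [mem_ball, dist_zero_right] at hw ⊢
    rw [norm_div, hAn, div_lt_iff₀ (by positivity)]
    rw [hsg] at hw
    linarith
  refine ⟨fun w => c * (1 + U (w / A)), ?_, ?_, ?_, ?_⟩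
  · have h1 : DifferentiableOn ℂ (fun w : ℂ => w / A) (ball 0 (sg k)) := by fun_prop
    have h2 : DifferentiableOn ℂ (fun w : ℂ => U (w / A)) (ball 0 (sg k)) := U1.comp h1 hscale
    exact (h2.const_add 1).const_mul c
  · intro w hw
    have h1 := U2 (hscale w hw)
    rw [mem_ball, dist_eq_norm] at h1 ⊢
    have : c * (1 + U (w / A)) - c = c * U (w / A) := by ring
    rw [this, norm_mul, hcn, hdl]
    rw [sub_zero] at h1
    gcongr
  · intro w hw
    have h1 := U3 _ (hscale w hw)
    rw [hKsub] at h1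
    field_simp at h1
    exact h1
  · intro z hz hfz
    set u := (z - c) / c with hu
    have hzu : c * (1 + u) = z := by rw [hu]; field_simp; ring
    have hub : u ∈ ball (0:ℂ) r := by
      rw [mem_ball, dist_eq_norm] at hz
      rw [mem_ball, dist_zero_right, hu, norm_div, hcn, div_lt_iff₀ ha]
      rw [hdl] at hz
      linarith
    have h1 : K u - 2 * u = ff z / A := by rw [hKsub, hzu]
    have h2 := U4 u hub (by rw [h1]; exact hscale _ hfz)
    rw [h1] at h2
    simp only
    rw [h2, hzu]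

end Pool.Agent.W174.SG
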