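import Pool.Agent.W757.SG.Defs

set_option autoImplicit false

open Filter Topology Metric Set
open Pool.Agent.W757.SG

namespace Pool.Agent.W174.SG

theorem la_succ (k : ℕ) : la (k + 1) = (ee k - 1) * la k := rfl

theorem ee_real (k : ℕ) : (ee k : ℝ) = 2 * ((k : ℝ) + 10) ^ 2 := by
  unfold ee; push_cast; ring

theorem ee_ge (k : ℕ) : (200 : ℝ) ≤ ee k := by
  rw [ee_real]
  have : (0:ℝ) ≤ k := Nat.cast_nonneg k
  nlinarith

theorem la_ge (k : ℕ) : 4000 + (k:ℝ) ≤ la k := by
  induction k with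
  | zero => simp [la]
  | succ k ih =>
    rw [la_succ]
    have h := ee_ge k
    have hk : (0:ℝ) ≤ k := Nat.cast_nonneg k
    push_cast
    nlinarith

theorem la_pos (k : ℕ) : 4000 ≤ la k := by
  have := la_ge k
  have hk : (0:ℝ) ≤ k := Nat.cast_nonneg k
  linarith

theorem la_step (k : ℕ) : 199 * la k ≤ la (k + 1) := by
  rw [la_succ]
  have h := ee_ge k
  have := la_pos k
  nlinarith

theorem la_mono : Monotone la := by
  apply monotone_nat_of_le_succ
  intro k
  have := la_step k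
  have := la_pos k
  linarith

theorem ee_succ (k : ℕ) : ee (k + 1) = ee k + (4 * k + 42) := by
  unfold ee; ring

theorem ee_le_la (k : ℕ) : (ee k : ℝ) ≤ la k := by
  induction k with
  | zero => simp [ee_real, la]; norm_num
  | succ k ih =>
    have h1 := la_step k
    have h2 := la_pos k
    have h3 : (ee (k + 1) : ℝ) = ee k + (4 * k + 42) := by
      rw [ee_succ]; push_cast; ring
    have h4 := la_ge k
    rw [h3]
    linarith

theorem exp_small (k : ℕ) : 4 * Real.exp (-38 * la k) ≤ 1 / (1000 * (ee k : ℝ) ^ 2) := by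
  have h1 := la_pos k
  have h2 := ee_le_la k
  have h3 := ee_ge k
  have e1 : (ee k : ℝ) ≤ Real.exp (la k) := by linarith [Real.add_one_le_exp (la k)]
  have e2 : (4000 : ℝ) ≤ Real.exp (la k) := by linarith [Real.add_one_le_exp (la k)]
  have e3 : 4000 * (ee k : ℝ) ^ 2 ≤ Real.exp (38 * la k) := by
    calc 4000 * (ee k : ℝ) ^ 2 ≤ Real.exp (la k) * Real.exp (la k) ^ 2 := by gcongr
      _ = Real.exp (3 * la k) := by
        rw [← Real.exp_nat_mul, ← Real.exp_add]; congr 1; push_cast; ring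
      _ ≤ Real.exp (38 * la k) := Real.exp_le_exp.2 (by linarith)
  rw [neg_mul, Real.exp_neg, le_div_iff₀ (by positivity)]
  have : (4:ℝ) * (Real.exp (38 * la k))⁻¹ * (1000 * (ee k : ℝ) ^ 2) =
      (4000 * (ee k : ℝ) ^ 2) * (Real.exp (38 * la k))⁻¹ := by ring
  rw [this, mul_inv_le_iff₀ (Real.exp_pos _), one_mul]
  exact e3

/-- main term -/
noncomputable def NN (j : ℕ) (r : ℝ) : ℝ := pp j * r ^ ee j
/-- majorant -/
noncomputable def MM (j : ℕ) (r : ℝ) : ℝ := pp j * r ^ ee j * (1 + r ^ 2 / aa j ^ 2)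

theorem pp_pos (j : ℕ) : 0 < pp j := Real.exp_pos _
theorem aa_pos (j : ℕ) : 0 < aa j := Real.exp_pos _

theorem NN_nonneg (j : ℕ) {r : ℝ} (hr : 0 ≤ r) : 0 ≤ NN j r := mul_nonneg (pp_pos j).le (pow_nonneg hr _)

theorem NN_le_MM (j : ℕ) {r : ℝ} (hr : 0 ≤ r) : NN j r ≤ MM j r := by
  have h := NN_nonneg j hr
  have : MM j r = NN j r * (1 + r ^ 2 / aa j ^ 2) := rfl
  rw [this]
  have h2 : 0 ≤ r ^ 2 / aa j ^ 2 := by positivity
  nlinarith

theorem MM_nonneg (j : ℕ) {r : ℝ} (hr : 0 ≤ r) : 0 ≤ MM j r := (NN_nonneg j hr).trans (NN_le_MM j hr)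

theorem norm_TT_le (j : ℕ) (z : ℂ) : ‖TT j z‖ ≤ MM j ‖z‖ := by
  unfold TT MM
  rw [norm_mul, norm_mul, norm_pow, Complex.norm_real, Real.norm_of_nonneg (pp_pos j).le]
  gcongr
  · have := pp_pos j
    positivity
  · refine (norm_add_le _ _).trans ?_
    rw [norm_one, norm_div, norm_pow, norm_pow, Complex.norm_real, Real.norm_of_nonneg (aa_pos j).le]

theorem MM_mono (j : ℕ) {r s : ℝ} (hr : 0 ≤ r) (hrs : r ≤ s) : MM j r ≤ MM j s := by
  unfold MM
  have := pp_pos j
  have := aa_pos j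
  have hs : 0 ≤ s := hr.trans hrs
  gcongr

/-- upper terms -/
theorem up (j : ℕ) {r : ℝ} (h0 : 0 ≤ r) (hr : r ≤ Real.exp (3 / 2 * la j)) :
    MM (j + 1) r ≤ Real.exp (-100 * la j) * NN j r := by
  have hl := la_pos j
  have hs := la_step j
  have hra : r ≤ aa (j + 1) := by
    refine hr.trans (Real.exp_le_exp.2 ?_)
    linarith
  have h2 : 1 + r ^ 2 / aa (j + 1) ^ 2 ≤ 2 := by
    have h3 : r ^ 2 / aa (j + 1) ^ 2 ≤ 1 := by
      rw [div_le_one (by have := aa_pos (j + 1); positivity)]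
      exact pow_le_pow_left₀ h0 hra 2
    linarith
  have h4 : r ^ (4 * j + 42) ≤ Real.exp ((4 * j + 42 : ℕ) * (3 / 2 * la j)) := by
    rw [Real.exp_nat_mul]
    exact pow_le_pow_left₀ h0 hr _
  have h5 : pp (j + 1) * (Real.exp ((4 * j + 42 : ℕ) * (3 / 2 * la j)) * 2) ≤
      Real.exp (-100 * la j) * pp j := by
    have e2 : (2:ℝ) ≤ Real.exp (la j) := by linarith [Real.add_one_le_exp (la j)]
    unfold pp
    calc Real.exp (6 - la (j + 1)) * (Real.exp ((4 * j + 42 : ℕ) * (3 / 2 * la j)) * 2)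
        ≤ Real.exp (6 - la (j + 1)) * (Real.exp ((4 * j + 42 : ℕ) * (3 / 2 * la j)) *
          Real.exp (la j)) := by gcongr
      _ = Real.exp (6 - la (j + 1) + ((4 * j + 42 : ℕ) * (3 / 2 * la j) + la j)) := by
        rw [Real.exp_add, Real.exp_add]
      _ ≤ Real.exp (-100 * la j + (6 - la j)) := by
        apply Real.exp_le_exp.2
        rw [la_succ, ee_real]
        push_cast
        have hj : (0:ℝ) ≤ j := Nat.cast_nonneg j
        nlinarith [mul_nonneg hj (by linarith : (0:ℝ) ≤ la j),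
          mul_nonneg (mul_nonneg hj hj) (by linarith : (0:ℝ) ≤ la j)]
      _ = _ := by rw [Real.exp_add]
  have hN : 0 ≤ r ^ ee j := pow_nonneg h0 _
  have hp := pp_pos (j + 1)
  calc MM (j + 1) r = pp (j + 1) * (r ^ ee j * r ^ (4 * j + 42)) * (1 + r ^ 2 / aa (j + 1) ^ 2) := by
        unfold MM; rw [ee_succ, pow_add]
    _ ≤ pp (j + 1) * (r ^ ee j * Real.exp ((4 * j + 42 : ℕ) * (3 / 2 * la j))) * 2 := by
        gcongr
    _ = r ^ ee j * (pp (j + 1) * (Real.exp ((4 * j + 42 : ℕ) * (3 / 2 * la j)) * 2)) := by ring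
    _ ≤ r ^ ee j * (Real.exp (-100 * la j) * pp j) := by gcongr
    _ = Real.exp (-100 * la j) * NN j r := by unfold NN; ring

/-- lower terms -/
theorem dn (j : ℕ) {r : ℝ} (hr : ww (j + 1) ≤ r) :
    MM j r ≤ Real.exp (-38 * la (j + 1)) * NN (j + 1) r := by
  have hl := la_pos j
  have hs := la_step j
  have hl1 := la_pos (j + 1)
  have hw : Real.exp (la (j + 1)) ≤ r := hr
  have h1r : 1 ≤ r := by
    have := Real.add_one_le_exp (la (j + 1))
    linarith
  have h0 : 0 < r := by linarith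
  have h1a : 1 ≤ aa j := by
    unfold aa
    have := Real.add_one_le_exp (la j + 2)
    linarith
  have h2 : 1 + r ^ 2 / aa j ^ 2 ≤ 2 * r ^ 2 := by
    have h3 : r ^ 2 / aa j ^ 2 ≤ r ^ 2 := div_le_self (by positivity) (one_le_pow₀ h1a)
    have h4 : 1 ≤ r ^ 2 := one_le_pow₀ h1r
    linarith
  have h5 : Real.exp (la (j + 1)) ^ (4 * j + 40) ≤ r ^ (4 * j + 40) :=
    pow_le_pow_left₀ (Real.exp_pos _).le hw _
  have h6 : pp j * 2 ≤ Real.exp (-38 * la (j + 1)) * pp (j + 1) * Real.exp (la (j + 1)) ^ (4 * j + 40) := by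
    have e2 : (2:ℝ) ≤ Real.exp (la (j + 1)) := by linarith [Real.add_one_le_exp (la (j + 1))]
    unfold pp
    calc Real.exp (6 - la j) * 2 ≤ Real.exp (6 - la j) * Real.exp (la (j + 1)) := by gcongr
      _ = Real.exp (6 - la j + la (j + 1)) := by rw [Real.exp_add]
      _ ≤ Real.exp (-38 * la (j + 1) + (6 - la (j + 1)) + (4 * j + 40 : ℕ) * la (j + 1)) := by
        apply Real.exp_le_exp.2
        push_cast
        have hj : (0:ℝ) ≤ j := Nat.cast_nonneg j
        nlinarith [mul_nonneg hj (by linarith : (0:ℝ) ≤ la (j + 1))]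
      _ = _ := by rw [Real.exp_add, Real.exp_add, Real.exp_nat_mul]
  have hp := pp_pos j
  have hp1 := pp_pos (j + 1)
  calc MM j r = pp j * r ^ ee j * (1 + r ^ 2 / aa j ^ 2) := rfl
    _ ≤ pp j * r ^ ee j * (2 * r ^ 2) := by gcongr
    _ = (pp j * 2) * (r ^ ee j * r ^ 2) := by ring
    _ ≤ (Real.exp (-38 * la (j + 1)) * pp (j + 1) * Real.exp (la (j + 1)) ^ (4 * j + 40)) *
        (r ^ ee j * r ^ 2) := by gcongr
    _ ≤ (Real.exp (-38 * la (j + 1)) * pp (j + 1) * r ^ (4 * j + 40)) *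
        (r ^ ee j * r ^ 2) := by gcongr
    _ = Real.exp (-38 * la (j + 1)) * NN (j + 1) r := by
      unfold NN
      have : r ^ ee (j + 1) = r ^ ee j * (r ^ (4 * j + 40) * r ^ 2) := by
        rw [ee_succ, ← pow_add, ← pow_add]
      rw [this]
      ring

theorem sum_dn (k : ℕ) {r : ℝ} (hr : ww k ≤ r) :
    ∑ j ∈ Finset.range k, MM j r ≤ 2 * Real.exp (-38 * la k) * NN k r := by
  have h0 : 0 ≤ r := (Real.exp_pos _).le.trans hr
  induction k with
  | zero => simp; exact mul_nonneg (by positivity) (NN_nonneg 0 h0)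
  | succ k ih =>
    have hm : ww k ≤ r := (Real.exp_le_exp.2 (la_mono (Nat.le_succ k))).trans hr
    rw [Finset.sum_range_succ]
    have h1 := ih hm
    have h2 := NN_le_MM k h0
    have h3 := dn k hr
    have h4 : 2 * Real.exp (-38 * la k) ≤ 1 := by
      have h5 := exp_small k
      have h6 := ee_ge k
      have h7 : 1 / (1000 * (ee k : ℝ) ^ 2) ≤ 1 := by
        rw [div_le_one (by positivity)]
        nlinarith
      have := Real.exp_pos (-38 * la k)
      linarith
    have h8 := MM_nonneg k h0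
    calc ∑ j ∈ Finset.range k, MM j r + MM k r
        ≤ 2 * Real.exp (-38 * la k) * MM k r + MM k r := by
          gcongr
          exact h1.trans (mul_le_mul_of_nonneg_left h2 (by positivity))
      _ ≤ 1 * MM k r + MM k r := by gcongr
      _ = 2 * MM k r := by ring
      _ ≤ 2 * (Real.exp (-38 * la (k + 1)) * NN (k + 1) r) := by gcongr
      _ = _ := by ring

theorem up_geo (k i : ℕ) {r : ℝ} (h0 : 0 ≤ r) (hr : r ≤ Real.exp (3 / 2 * la k)) :
    MM (i + (k + 1)) r ≤ Real.exp (-100 * la k) * NN k r * (1 / 4) ^ i := by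
  induction i with
  | zero => simpa using up k h0 hr
  | succ i ih =>
    have hr' : r ≤ Real.exp (3 / 2 * la (i + (k + 1))) := by
      refine hr.trans (Real.exp_le_exp.2 ?_)
      have := la_mono (show k ≤ i + (k + 1) by omega)
      linarith
    have h1 := up (i + (k + 1)) h0 hr'
    have h2 := NN_le_MM (i + (k + 1)) h0
    have h3 : Real.exp (-100 * la (i + (k + 1))) ≤ 1 / 4 := by
      have h4 := exp_small (i + (k + 1))
      have h6 := ee_ge (i + (k + 1))
      have h7 : 1 / (1000 * (ee (i + (k + 1)) : ℝ) ^ 2) ≤ 1 := by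
        rw [div_le_one (by positivity)]
        nlinarith
      have h8 : Real.exp (-100 * la (i + (k + 1))) ≤ Real.exp (-38 * la (i + (k + 1))) :=
        Real.exp_le_exp.2 (by have := la_pos (i + (k + 1)); linarith)
      linarith
    rw [show i + 1 + (k + 1) = i + (k + 1) + 1 by ring]
    calc MM (i + (k + 1) + 1) r ≤ Real.exp (-100 * la (i + (k + 1))) * NN (i + (k + 1)) r := h1
      _ ≤ 1 / 4 * MM (i + (k + 1)) r := mul_le_mul h3 h2 (NN_nonneg _ h0) (by norm_num)
      _ ≤ 1 / 4 * (Real.exp (-100 * la k) * NN k r * (1 / 4) ^ i) := by gcongr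
      _ = _ := by rw [pow_succ]; ring

theorem geo_summable (C : ℝ) : Summable fun i : ℕ => C * (1 / 4 : ℝ) ^ i :=
  (summable_geometric_of_lt_one (by norm_num) (by norm_num)).mul_left C

theorem up_summable (k : ℕ) {r : ℝ} (h0 : 0 ≤ r) (hr : r ≤ Real.exp (3 / 2 * la k)) :
    Summable fun i => MM (i + (k + 1)) r :=
  Summable.of_nonneg_of_le (fun _ => MM_nonneg _ h0) (fun i => up_geo k i h0 hr)
    (geo_summable _)

theorem up_sum (k : ℕ) {r : ℝ} (h0 : 0 ≤ r) (hr : r ≤ Real.exp (3 / 2 * la k)) :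
    ∑' i, MM (i + (k + 1)) r ≤ 2 * Real.exp (-38 * la k) * NN k r := by
  have h1 : ∑' i, MM (i + (k + 1)) r ≤ ∑' i : ℕ, Real.exp (-100 * la k) * NN k r * (1 / 4) ^ i :=
    (up_summable k h0 hr).tsum_le_tsum (fun i => up_geo k i h0 hr) (geo_summable _)
  rw [tsum_mul_left, tsum_geometric_of_lt_one (by norm_num) (by norm_num)] at h1
  have h2 : Real.exp (-100 * la k) ≤ Real.exp (-38 * la k) :=
    Real.exp_le_exp.2 (by have := la_pos k; linarith)
  have h3 := NN_nonneg k h0
  have h4 := Real.exp_pos (-100 * la k)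
  calc _ ≤ _ := h1
    _ = Real.exp (-100 * la k) * NN k r * (4 / 3) := by norm_num
    _ ≤ Real.exp (-38 * la k) * NN k r * 2 := by gcongr; norm_num
    _ = _ := by ring

theorem summable_MM {r : ℝ} (h0 : 0 ≤ r) : Summable fun j => MM j r := by
  obtain ⟨k, hk⟩ := exists_nat_ge r
  have : r ≤ Real.exp (3 / 2 * la k) := by
    have h1 := la_ge k
    have h2 := Real.add_one_le_exp (3 / 2 * la k)
    have h3 : (0:ℝ) ≤ k := Nat.cast_nonneg k
    linarith
  exact (summable_nat_add_iff (k + 1)).1 (up_summable k h0 this)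

theorem tt_le (k : ℕ) : tt k ≤ Real.exp (3 / 2 * la k) := by
  apply Real.exp_le_exp.2
  unfold qq
  have h1 := la_pos k
  have h2 : 0 ≤ 2 / ((k:ℝ) + 9) := by positivity
  nlinarith

theorem summable_TT (z : ℂ) : Summable fun j => TT j z :=
  Summable.of_norm_bounded (summable_MM (norm_nonneg z)) (fun j => norm_TT_le j z)

theorem fun1 : StFUN1 := by
  refine ⟨?_, ?_, ?_, ?_⟩
  · intro z
    have h := Complex.differentiableOn_tsum_of_summable_norm (F := TT) (U := ball 0 (‖z‖ + 1))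
      (summable_MM (r := ‖z‖ + 1) (by positivity))
      (fun i => by unfold TT; fun_prop) isOpen_ball
      (fun i w hw => (norm_TT_le i w).trans (MM_mono i (norm_nonneg _)
        (le_of_lt (by simpa using hw))))
    exact h.differentiableAt (isOpen_ball.mem_nhds (by simp))
  · unfold ff TT
    have : ∀ k, ee k ≠ 0 := fun k => by unfold ee; positivity
    simp [this]
  · intro k z h1 h2
    have hr : ‖z‖ ≤ Real.exp (3 / 2 * la k) := h2.trans (tt_le k)
    have h0 := norm_nonneg z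
    have hs := summable_TT z
    have e1 : ff z - TT k z = ∑ j ∈ Finset.range k, TT j z + ∑' i, TT (i + (k + 1)) z := by
      unfold ff
      rw [← hs.sum_add_tsum_nat_add (k + 1), Finset.sum_range_succ]
      ring
    have hsn : Summable fun i => ‖TT (i + (k + 1)) z‖ :=
      Summable.of_nonneg_of_le (fun i => norm_nonneg _) (fun i => norm_TT_le _ z)
        (up_summable k h0 hr)
    have e2 : ‖∑' i, TT (i + (k + 1)) z‖ ≤ ∑' i, MM (i + (k + 1)) ‖z‖ :=
      (norm_tsum_le_tsum_norm hsn).trans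
        (hsn.tsum_le_tsum (fun i => norm_TT_le _ z) (up_summable k h0 hr))
    have e3 : ‖∑ j ∈ Finset.range k, TT j z‖ ≤ ∑ j ∈ Finset.range k, MM j ‖z‖ :=
      (norm_sum_le _ _).trans (Finset.sum_le_sum fun j _ => norm_TT_le j z)
    have e4 := sum_dn k h1
    have e5 := up_sum k h0 hr
    have e6 := exp_small k
    have e7 := NN_nonneg k h0
    rw [e1]
    calc _ ≤ ‖∑ j ∈ Finset.range k, TT j z‖ + ‖∑' i, TT (i + (k + 1)) z‖ := norm_add_le _ _
      _ ≤ 4 * Real.exp (-38 * la k) * NN k ‖z‖ := by linarith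
      _ ≤ 1 / (1000 * (ee k : ℝ) ^ 2) * NN k ‖z‖ := by gcongr
      _ = _ := rfl
  · intro k z hz
    have h0 := norm_nonneg z
    have hv0 : 0 ≤ vv k := (Real.exp_pos _).le
    have hw : ww k ≤ vv k := Real.exp_le_exp.2 (by linarith)
    have hr : vv k ≤ Real.exp (3 / 2 * la k) := Real.exp_le_exp.2 (by have := la_pos k; linarith)
    have hs := summable_MM hv0
    have hsn : Summable fun i => ‖TT i z‖ := (summable_TT z).norm
    have e1 : ‖ff z‖ ≤ ∑' j, MM j (vv k) := by
      unfold ff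
      exact (norm_tsum_le_tsum_norm hsn).trans
        (hsn.tsum_le_tsum (fun i => (norm_TT_le _ z).trans (MM_mono i h0 hz)) hs)
    have e2 : ∑' j, MM j (vv k) = ∑ j ∈ Finset.range k, MM j (vv k) + MM k (vv k) +
        ∑' i, MM (i + (k + 1)) (vv k) := by
      rw [← hs.sum_add_tsum_nat_add (k + 1), Finset.sum_range_succ]
    have e4 := sum_dn k hw
    have e5 := up_sum k hv0 hr
    have e6 := exp_small k
    have e7 := NN_nonneg k hv0
    have e8 := NN_le_MM k hv0
    have e9 : 4 * Real.exp (-38 * la k) ≤ 1 := by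
      have h6 := ee_ge k
      have h7 : 1 / (1000 * (ee k : ℝ) ^ 2) ≤ 1 := by
        rw [div_le_one (by positivity)]
        nlinarith
      linarith
    have e10 : 4 * Real.exp (-38 * la k) * NN k (vv k) ≤ 1 * NN k (vv k) := by gcongr
    calc ‖ff z‖ ≤ _ := e1
      _ ≤ 2 * MM k (vv k) := by rw [e2]; linarith
      _ = _ := rfl

end Pool.Agent.W174.SG
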