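import Pool.Agent.W174.SG.Fun1

set_option autoImplicit false

open Filter Topology Metric Set
open Pool.Agent.W757.SG

namespace Pool.Agent.W174.SG

theorem la_ee (k : ℕ) : 19 * (ee k : ℝ) ≤ la k := by
  induction k with
  | zero => simp [ee_real, la]; norm_num
  | succ k ih =>
    have h1 := la_step k
    have h3 : (ee (k + 1) : ℝ) = ee k + (4 * k + 42) := by
      rw [ee_succ]; push_cast; ring
    have h5 : 4 * (k:ℝ) + 42 ≤ ee k := by
      rw [ee_real]
      have : (0:ℝ) ≤ k := Nat.cast_nonneg k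
      nlinarith
    have h6 := ee_ge k
    rw [h3]
    linarith

theorem qq_bd (k : ℕ) : 23 / 18 ≤ qq k ∧ qq k ≤ 3 / 2 := by
  unfold qq
  have h0 : (0:ℝ) ≤ k := Nat.cast_nonneg k
  constructor
  · have : 2 / ((k:ℝ) + 9) ≤ 2 / 9 := by
      apply div_le_div_of_nonneg_left (by norm_num) (by norm_num) (by linarith)
    linarith
  · have : 0 ≤ 2 / ((k:ℝ) + 9) := by positivity
    linarith

theorem pp_exp (k : ℕ) (x : ℝ) : pp k * Real.exp (la k + x) ^ ee k =
    Real.exp (6 + la (k + 1) + ee k * x) := by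
  unfold pp
  rw [← Real.exp_nat_mul, ← Real.exp_add, la_succ]
  congr 1
  ring

theorem qq_step (k : ℕ) : qq k * (ee k + 2) - 3 + 5 / 2 ≤ qq (k + 1) * (ee k - 1) := by
  unfold qq
  rw [ee_real]
  push_cast
  have h0 : (0:ℝ) ≤ k := Nat.cast_nonneg k
  have h1 : (0:ℝ) < (k:ℝ) + 9 := by positivity
  have h2 : (0:ℝ) < (k:ℝ) + 1 + 9 := by positivity
  have e1 : 2 / ((k:ℝ) + 9) - 2 / ((k:ℝ) + 1 + 9) = 2 / (((k:ℝ) + 9) * ((k:ℝ) + 10)) := by
    field_simp; ring
  have e2 : 4 ≤ 2 / (((k:ℝ) + 9) * ((k:ℝ) + 10)) * (2 * ((k:ℝ) + 10) ^ 2 - 1) := by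
    rw [div_mul_eq_mul_div, le_div_iff₀ (by positivity)]
    nlinarith
  have e3 : 2 / ((k:ℝ) + 9) * 3 ≥ 0 := by positivity
  rw [← e1] at e2
  nlinarith

theorem exp2 : 4 ≤ Real.exp 2 := by
  have h := Real.add_one_le_exp 1
  have : Real.exp 2 = Real.exp 1 ^ 2 := by rw [← Real.exp_nat_mul]; norm_num
  rw [this]
  nlinarith

theorem norm_cc (b : Bool) (k : ℕ) : ‖cc b k‖ = aa k := by
  unfold cc
  have := aa_pos k
  split_ifs <;> simp [abs_of_pos this]

theorem cc_sq (b : Bool) (k : ℕ) : cc b k ^ 2 = -(aa k : ℂ) ^ 2 := by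
  unfold cc
  split_ifs <;> ring_nf <;> simp

theorem norm_TT (k : ℕ) (z : ℂ) : ‖TT k z‖ = pp k * ‖z‖ ^ ee k * ‖1 + z ^ 2 / (aa k : ℂ) ^ 2‖ := by
  unfold TT
  rw [norm_mul, norm_mul, norm_pow, Complex.norm_real, Real.norm_of_nonneg (pp_pos k).le]

theorem small_le (k : ℕ) : 1 / (1000 * (ee k : ℝ) ^ 2) ≤ 1 / 1000 * (1 / ee k) ∧
    1 / (ee k : ℝ) ≤ 1 / 200 ∧ 0 < 1 / (ee k : ℝ) := by
  have h := ee_ge k
  refine ⟨?_, ?_, by positivity⟩
  · have e : 1 / (1000 * (ee k : ℝ) ^ 2) = 1 / 1000 * (1 / (ee k : ℝ)) * (1 / (ee k : ℝ)) := by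
      field_simp
    have e1 : 1 / (ee k : ℝ) ≤ 1 := by
      rw [div_le_one (by positivity)]; linarith
    have e2 : 0 < 1 / (ee k : ℝ) := by positivity
    rw [e]
    nlinarith
  · apply one_div_le_one_div_of_le (by norm_num) h

theorem dl_eq (k : ℕ) : dl k = aa k * (1 / 20 * (1 / ee k)) := by
  unfold dl
  have := ee_ge k
  field_simp

theorem dl_bd (k : ℕ) : 0 < dl k ∧ dl k ≤ aa k / 4000 := by
  have h := small_le k
  have ha := aa_pos k
  rw [dl_eq]
  refine ⟨by have := h.2.2; positivity, ?_⟩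
  nlinarith

theorem annulus (h : StFUN1) (k : ℕ) (z : ℂ) (h1 : vv k < ‖z‖) (h2 : ‖z‖ < tt k) :
    vv (k + 1) < ‖ff z‖ ∧ ‖ff z‖ < tt (k + 1) := by
  have hl := la_pos k
  have ha := aa_pos k
  have hp := pp_pos k
  have hv : 0 < vv k := Real.exp_pos _
  have hz0 : 0 < ‖z‖ := hv.trans h1
  have herr := h.2.2.1 k z ((Real.exp_le_exp.2 (by linarith)).trans h1.le) h2.le
  obtain ⟨s1, s2, s3⟩ := small_le k
  set N := pp k * ‖z‖ ^ ee k with hN
  have hN0 : 0 < N := by positivity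
  have herr' : ‖ff z - TT k z‖ ≤ N := by
    refine herr.trans ?_
    have : 1 / (1000 * (ee k : ℝ) ^ 2) ≤ 1 := by linarith
    nlinarith
  have hva : vv k = aa k * Real.exp 2 := by
    unfold vv aa; rw [← Real.exp_add]; congr 1; ring
  have hR : 16 ≤ ‖z‖ ^ 2 / aa k ^ 2 := by
    rw [le_div_iff₀ (by positivity)]
    have e4 : 4 * aa k ≤ ‖z‖ := by
      rw [hva] at h1
      have := exp2
      nlinarith
    nlinarith
  have hT := norm_TT k z
  rw [← hN] at hT
  have t1 : ‖z‖ ^ 2 / aa k ^ 2 - 1 ≤ ‖1 + z ^ 2 / (aa k : ℂ) ^ 2‖ := by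
    have e : ‖z ^ 2 / (aa k : ℂ) ^ 2‖ = ‖z‖ ^ 2 / aa k ^ 2 := by
      rw [norm_div, norm_pow, norm_pow, Complex.norm_real, Real.norm_of_nonneg ha.le]
    rw [← e]
    have := norm_sub_le (1 + z ^ 2 / (aa k : ℂ) ^ 2) 1
    rw [add_sub_cancel_left, norm_one] at this
    linarith
  have t2 : ‖1 + z ^ 2 / (aa k : ℂ) ^ 2‖ ≤ 1 + ‖z‖ ^ 2 / aa k ^ 2 := by
    refine (norm_add_le _ _).trans (le_of_eq ?_)
    rw [norm_one, norm_div, norm_pow, norm_pow, Complex.norm_real, Real.norm_of_nonneg ha.le]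
  constructor
  · have e1 : N * 15 ≤ ‖TT k z‖ := by rw [hT]; gcongr; linarith
    have e2 : ‖TT k z‖ ≤ ‖ff z‖ + N := by
      have := norm_sub_le (ff z) (ff z - TT k z)
      rw [sub_sub_cancel] at this
      linarith
    have e3 : vv (k + 1) < N := by
      calc vv (k + 1) = Real.exp (la (k + 1) + 4) := rfl
        _ < Real.exp (6 + la (k + 1) + ee k * 4) := by
          apply Real.exp_lt_exp.2
          have := ee_ge k
          linarith
        _ = pp k * vv k ^ ee k := (pp_exp k 4).symm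
        _ ≤ N := by rw [hN]; gcongr
    linarith
  · have e2 : ‖ff z‖ ≤ ‖TT k z‖ + N := by
      have := norm_add_le (TT k z) (ff z - TT k z)
      rw [add_sub_cancel] at this
      linarith
    have e3 : ‖ff z‖ ≤ 2 * (N * (‖z‖ ^ 2 / aa k ^ 2)) := by
      have : N * ‖1 + z ^ 2 / (aa k : ℂ) ^ 2‖ ≤ N * (1 + ‖z‖ ^ 2 / aa k ^ 2) := by gcongr
      rw [hT] at e2
      nlinarith
    have e4 : N * (‖z‖ ^ 2 / aa k ^ 2) ≤ pp k * tt k ^ ee k * (tt k ^ 2 / aa k ^ 2) := by
      have htt : 0 < tt k := Real.exp_pos _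
      rw [hN]; gcongr
    have e5 : 2 * (pp k * tt k ^ ee k * (tt k ^ 2 / aa k ^ 2)) < tt (k + 1) := by
      have q1 := qq_step k
      have r1 : pp k * tt k ^ ee k * (tt k ^ 2 / aa k ^ 2) =
          Real.exp (6 - la k + ee k * (qq k * la k) + (2 * (qq k * la k) - 2 * (la k + 2))) := by
        have a1 : tt k ^ ee k = Real.exp (ee k * (qq k * la k)) := (Real.exp_nat_mul _ _).symm
        have a2 : tt k ^ 2 = Real.exp (2 * (qq k * la k)) := by
          unfold tt; rw [← Real.exp_nat_mul]; norm_num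
        have a3 : aa k ^ 2 = Real.exp (2 * (la k + 2)) := by
          unfold aa; rw [← Real.exp_nat_mul]; norm_num
        rw [a1, a2, a3, ← Real.exp_sub]
        unfold pp
        rw [← Real.exp_add, ← Real.exp_add]
      rw [r1]
      have r2 : (2:ℝ) ≤ Real.exp 1 := by have := Real.add_one_le_exp 1; linarith
      calc 2 * Real.exp _ ≤ Real.exp 1 * Real.exp _ := by gcongr
        _ = Real.exp (1 + (6 - la k + ee k * (qq k * la k) + (2 * (qq k * la k) - 2 * (la k + 2)))) := by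
          rw [← Real.exp_add]
        _ < Real.exp (qq (k + 1) * la (k + 1)) := by
          apply Real.exp_lt_exp.2
          rw [la_succ]
          have : (qq k * (ee k + 2) - 3 + 5 / 2) * la k ≤ (qq (k + 1) * (ee k - 1)) * la k :=
            mul_le_mul_of_nonneg_right q1 (by linarith)
          nlinarith
        _ = tt (k + 1) := rfl
    linarith

/-- facts in the discs around the zeros -/
theorem disc {b : Bool} {k : ℕ} {z : ℂ} (hz : ‖z - cc b k‖ ≤ 2 * dl k) :
    ww k ≤ ‖z‖ ∧ ‖z‖ ≤ tt k ∧ (19 / 20) * aa k ≤ ‖z‖ ∧ ‖z‖ ≤ Real.exp (la k + 3) := by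
  have ha := aa_pos k
  have hd := dl_bd k
  have hc := norm_cc b k
  have h1 : ‖z‖ ≤ aa k + 2 * dl k := by
    have := norm_add_le (z - cc b k) (cc b k)
    rw [sub_add_cancel] at this
    linarith
  have h2 : aa k - 2 * dl k ≤ ‖z‖ := by
    have := norm_sub_le z (z - cc b k)
    rw [sub_sub_cancel] at this
    linarith
  have r1 : (2:ℝ) ≤ Real.exp 1 := by have := Real.add_one_le_exp 1; linarith
  have r2 := exp2
  have e1 : aa k = ww k * Real.exp 2 := by unfold aa ww; rw [← Real.exp_add]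
  have e2 : Real.exp (la k + 3) = aa k * Real.exp 1 := by
    unfold aa; rw [← Real.exp_add]; congr 1; ring
  have hw : 0 < ww k := Real.exp_pos _
  have h3 : ‖z‖ ≤ Real.exp (la k + 3) := by rw [e2]; nlinarith
  refine ⟨?_, h3.trans ?_, by linarith, h3⟩
  · nlinarith
  · apply Real.exp_le_exp.2
    have := (qq_bd k).1
    have := la_pos k
    nlinarith

theorem circle (h : StFUN1) (b : Bool) (k : ℕ) (z : ℂ) (hz : ‖z - cc b k‖ = dl k) :
    vv (k + 1) < ‖ff z‖ ∧ ‖ff z‖ < tt (k + 1) := by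
  have hl := la_pos k
  have ha := aa_pos k
  have hp := pp_pos k
  have he := ee_ge k
  have hd := dl_bd k
  have hc := norm_cc b k
  obtain ⟨d1, d2, d3, d4⟩ := disc (b := b) (k := k) (z := z) (by rw [hz]; linarith)
  have hz0 : 0 < ‖z‖ := lt_of_lt_of_le (by positivity) d3
  have herr := h.2.2.1 k z d1 d2
  obtain ⟨s1, s2, s3⟩ := small_le k
  set N := pp k * ‖z‖ ^ ee k with hN
  have hN0 : 0 < N := by positivity
  have hT := norm_TT k z
  rw [← hN] at hT
  have ha2 : ((aa k : ℝ) : ℂ) ^ 2 ≠ 0 := by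
    have : ((aa k : ℝ) : ℂ) ≠ 0 := by exact_mod_cast ha.ne'
    positivity
  have hfac : 1 + z ^ 2 / (aa k : ℂ) ^ 2 = (z - cc b k) * (z + cc b k) / (aa k : ℂ) ^ 2 := by
    have := cc_sq b k
    rw [eq_div_iff ha2, add_mul, div_mul_cancel₀ _ ha2]
    linear_combination this
  have hfn : ‖1 + z ^ 2 / (aa k : ℂ) ^ 2‖ = dl k * ‖z + cc b k‖ / aa k ^ 2 := by
    rw [hfac, norm_div, norm_mul, hz, norm_pow, Complex.norm_real, Real.norm_of_nonneg ha.le]
  have hzc1 : 2 * aa k - dl k ≤ ‖z + cc b k‖ := by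
    have := norm_sub_le (z + cc b k) (z - cc b k)
    have e : z + cc b k - (z - cc b k) = 2 * cc b k := by ring
    rw [e, norm_mul, hc, hz] at this
    norm_num at this
    linarith
  have hzc2 : ‖z + cc b k‖ ≤ 2 * aa k + dl k := by
    have := norm_add_le (z - cc b k) (2 * cc b k)
    have e : z - cc b k + 2 * cc b k = z + cc b k := by ring
    rw [e, norm_mul, hc, hz] at this
    norm_num at this
    linarith
  have lo : 9 / 100 * (1 / (ee k : ℝ)) ≤ ‖1 + z ^ 2 / (aa k : ℂ) ^ 2‖ := by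
    rw [hfn, le_div_iff₀ (by positivity), dl_eq]
    have : 19 / 10 * aa k ≤ ‖z + cc b k‖ := by linarith
    calc 9 / 100 * (1 / (ee k : ℝ)) * aa k ^ 2 ≤
        aa k * (1 / 20 * (1 / (ee k : ℝ))) * (19 / 10 * aa k) := by
          have : 0 ≤ (1 / (ee k : ℝ)) * aa k ^ 2 := by positivity
          nlinarith
      _ ≤ _ := by gcongr
  have hi : ‖1 + z ^ 2 / (aa k : ℂ) ^ 2‖ ≤ 1 := by
    rw [hfn, div_le_one (by positivity)]
    nlinarith
  have hpow : 19 / 20 * aa k ^ ee k ≤ ‖z‖ ^ ee k := by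
    have b1 : 1 + (ee k : ℝ) * (-(1 / 20 * (1 / (ee k : ℝ)))) ≤ (1 + -(1 / 20 * (1 / (ee k : ℝ)))) ^ ee k :=
      one_add_mul_le_pow (by linarith) _
    have b2 : 1 + (ee k : ℝ) * (-(1 / 20 * (1 / (ee k : ℝ)))) = 19 / 20 := by
      field_simp; norm_num
    have b3 : (1 + -(1 / 20 * (1 / (ee k : ℝ)))) * aa k ≤ ‖z‖ := by
      have := norm_sub_le z (z - cc b k)
      rw [sub_sub_cancel, hc, hz, dl_eq] at this
      linarith
    have b4 : 0 ≤ 1 + -(1 / 20 * (1 / (ee k : ℝ))) := by linarith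
    calc 19 / 20 * aa k ^ ee k ≤ (1 + -(1 / 20 * (1 / (ee k : ℝ)))) ^ ee k * aa k ^ ee k := by
          rw [b2] at b1; gcongr
      _ = ((1 + -(1 / 20 * (1 / (ee k : ℝ)))) * aa k) ^ ee k := by rw [mul_pow]
      _ ≤ _ := pow_le_pow_left₀ (by positivity) b3 _
  constructor
  · have e1 : N * (9 / 100 * (1 / (ee k : ℝ))) ≤ ‖TT k z‖ := by rw [hT]; gcongr
    have e2 : ‖TT k z‖ ≤ ‖ff z‖ + 1 / (1000 * (ee k : ℝ) ^ 2) * N := by
      have := norm_sub_le (ff z) (ff z - TT k z)
      rw [sub_sub_cancel] at this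
      linarith
    have e3 : N * (8 / 100 * (1 / (ee k : ℝ))) ≤ ‖ff z‖ := by
      have : 1 / (1000 * (ee k : ℝ) ^ 2) * N ≤ 1 / 1000 * (1 / (ee k : ℝ)) * N := by gcongr
      nlinarith [mul_pos hN0 s3]
    refine lt_of_lt_of_le ?_ e3
    have e4 : 19 / 20 * Real.exp (6 + la (k + 1) + ee k * 2) ≤ N := by
      rw [← pp_exp k 2, hN]
      have : pp k * (19 / 20 * aa k ^ ee k) ≤ pp k * ‖z‖ ^ ee k := by gcongr
      calc _ = pp k * (19 / 20 * aa k ^ ee k) := by unfold aa; ring
        _ ≤ _ := this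
    have e5 : (ee k : ℝ) ≤ Real.exp (ee k) := by linarith [Real.add_one_le_exp (ee k : ℝ)]
    have e6 : Real.exp (6 + la (k + 1) + ee k * 2) = vv (k + 1) * Real.exp 2 * Real.exp (ee k) * Real.exp (ee k) := by
      unfold vv; rw [← Real.exp_add, ← Real.exp_add, ← Real.exp_add]; congr 1; ring
    have hv : 0 < vv (k + 1) := Real.exp_pos _
    have r2 := exp2
    calc vv (k + 1) < vv (k + 1) * (19 / 20 * 4 * 200 * (8 / 100)) := by
          have : (1:ℝ) < 19 / 20 * 4 * 200 * (8 / 100) := by norm_num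
          nlinarith
      _ ≤ vv (k + 1) * (19 / 20 * Real.exp 2 * Real.exp (ee k) * (8 / 100)) := by
          gcongr
          linarith
      _ = (19 / 20 * (vv (k + 1) * Real.exp 2 * Real.exp (ee k) * ee k)) * (8 / 100 * (1 / (ee k : ℝ))) := by
          field_simp
      _ ≤ (19 / 20 * (vv (k + 1) * Real.exp 2 * Real.exp (ee k) * Real.exp (ee k))) *
          (8 / 100 * (1 / (ee k : ℝ))) := by gcongr
      _ ≤ N * (8 / 100 * (1 / (ee k : ℝ))) := by
          rw [← e6]; gcongr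
  · have e2 : ‖ff z‖ ≤ ‖TT k z‖ + 1 / (1000 * (ee k : ℝ) ^ 2) * N := by
      have := norm_add_le (TT k z) (ff z - TT k z)
      rw [add_sub_cancel] at this
      linarith
    have e3 : ‖ff z‖ ≤ 2 * N := by
      have : N * ‖1 + z ^ 2 / (aa k : ℂ) ^ 2‖ ≤ N * 1 := by gcongr
      have h7 : 1 / (1000 * (ee k : ℝ) ^ 2) ≤ 1 := by linarith
      have h8 : 1 / (1000 * (ee k : ℝ) ^ 2) * N ≤ 1 * N := by gcongr
      rw [hT] at e2
      linarith
    have e4 : N ≤ Real.exp (6 + la (k + 1) + ee k * 3) := by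
      rw [← pp_exp k 3, hN]; gcongr
    have r1 : (2:ℝ) ≤ Real.exp 1 := by have := Real.add_one_le_exp 1; linarith
    calc ‖ff z‖ ≤ 2 * N := e3
      _ ≤ Real.exp 1 * Real.exp (6 + la (k + 1) + ee k * 3) := by gcongr
      _ = Real.exp (1 + (6 + la (k + 1) + ee k * 3)) := by rw [← Real.exp_add]
      _ < Real.exp (qq (k + 1) * la (k + 1)) := by
        apply Real.exp_lt_exp.2
        have h7 := (qq_bd (k + 1)).1
        have h8 := la_step k
        have h9 := la_ee k
        have h10 := la_pos (k + 1)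
        nlinarith
      _ = tt (k + 1) := rfl

theorem fun2 (h : StFUN1) : StFUN2 := by
  refine ⟨?_, ?_, ?_, ?_, fun k => (dl_bd k).1, ?_, annulus h, circle h, ?_, ?_, ?_, ?_, ?_⟩
  · apply tendsto_atTop_mono _ tendsto_natCast_atTop_atTop
    intro k
    unfold vv
    have := la_ge k
    have := Real.add_one_le_exp (la k + 4)
    linarith
  · intro k
    apply Real.one_lt_exp_iff.2
    have := la_pos k
    linarith
  · intro k
    apply Real.exp_lt_exp.2
    have := ee_ge k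
    linarith
  · intro k
    apply Real.exp_lt_exp.2
    have h1 := ee_ge k
    have h2 := la_ee k
    have h3 := (qq_bd k).1
    have h4 := la_pos k
    nlinarith
  · intro k
    have h1 := ee_ge k
    have h2 := pp_pos k
    have h3 := aa_pos k
    unfold sg
    positivity
  · intro k z hz
    have h1 := h.2.2.2 k z hz
    have h2 : vv k ^ 2 / aa k ^ 2 = Real.exp 4 := by
      unfold vv aa
      rw [← Real.exp_nat_mul, ← Real.exp_nat_mul, ← Real.exp_sub]
      congr 1
      push_cast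
      ring
    have h3 : pp k * vv k ^ ee k = Real.exp (6 + la (k + 1) + ee k * 4) := pp_exp k 4
    rw [h2, h3] at h1
    have h4 : 2 * (1 + Real.exp 4) ≤ Real.exp 6 := by
      have e1 : Real.exp 6 = Real.exp 4 * Real.exp 2 := by rw [← Real.exp_add]; norm_num
      have e2 := exp2
      have e3 : 1 ≤ Real.exp 4 := Real.one_le_exp (by norm_num)
      rw [e1]; nlinarith
    calc ‖ff z‖ ≤ _ := h1
      _ = Real.exp (6 + la (k + 1) + ee k * 4) * (2 * (1 + Real.exp 4)) := by ring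
      _ ≤ Real.exp (6 + la (k + 1) + ee k * 4) * Real.exp 6 := by gcongr
      _ = Real.exp (6 + la (k + 1) + ee k * 4 + 6) := by rw [← Real.exp_add]
      _ < Real.exp (la (k + 1) + 4 * ee (k + 1) + 12) := by
        apply Real.exp_lt_exp.2
        rw [ee_succ]
        push_cast
        have : (0:ℝ) ≤ k := Nat.cast_nonneg k
        linarith
      _ = ss (k + 1) := rfl
  · intro b k
    rw [norm_cc]
    have h1 := dl_bd k
    have h2 := aa_pos k
    have hva : vv k = aa k * Real.exp 2 := by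
      unfold vv aa; rw [← Real.exp_add]; congr 1; ring
    have := exp2
    rw [hva]
    nlinarith
  · intro b k
    rw [norm_cc]
    have h1 := dl_bd (k + 1)
    have h2 := aa_pos (k + 1)
    have he := ee_ge k
    have h3 : pp k * aa k ^ ee k = Real.exp (6 + la (k + 1) + ee k * 2) := pp_exp k 2
    unfold sg
    rw [h3, div_div, le_div_iff₀ (by positivity)]
    have e5 : (ee k : ℝ) ≤ Real.exp (ee k) := by linarith [Real.add_one_le_exp (ee k : ℝ)]
    have e6 : Real.exp (6 + la (k + 1) + ee k * 2) =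
        aa (k + 1) * Real.exp 2 * Real.exp 2 * Real.exp (ee k) * Real.exp (ee k) := by
      unfold aa
      rw [← Real.exp_add, ← Real.exp_add, ← Real.exp_add, ← Real.exp_add]; congr 1; ring
    have r2 := exp2
    rw [e6]
    calc (aa (k + 1) + dl (k + 1)) * (20 * ee k * 10) ≤ (2 * aa (k + 1)) * (20 * ee k * 10) := by
          gcongr; linarith
      _ = aa (k + 1) * 400 * ee k := by ring
      _ ≤ aa (k + 1) * (4 * 4 * 200) * ee k := by gcongr; norm_num
      _ ≤ aa (k + 1) * (Real.exp 2 * Real.exp 2 * Real.exp (ee k)) * Real.exp (ee k) := by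
          gcongr; linarith
      _ = _ := by ring
  · intro k
    have h1 := dl_bd k
    have h2 := aa_pos k
    have : cc true k - cc false k = 2 * (Complex.I * aa k) := by
      unfold cc; simp; ring
    rw [this, norm_mul, norm_mul, Complex.norm_I, Complex.norm_real, Real.norm_of_nonneg h2.le]
    norm_num
    linarith
  · intro C
    obtain ⟨n, hn⟩ := exists_nat_ge (2 * |C|)
    filter_upwards [eventually_ge_atTop n] with k hk
    unfold tt vv
    rw [Real.log_exp, Real.log_exp, la_succ]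
    have h1 := (qq_bd k)
    have h2 := la_pos k
    have h3 : (ee k : ℝ) - 1 ≥ 2 * |C| := by
      rw [ee_real]
      have : (n:ℝ) ≤ k := by exact_mod_cast hk
      have h0 : (0:ℝ) ≤ k := Nat.cast_nonneg k
      nlinarith
    have h4 : C * (qq k * la k) ≤ |C| * (3 / 2 * la k) := by
      calc C * (qq k * la k) ≤ |C| * (qq k * la k) := by
            gcongr
            · have := h1.1; positivity
            · exact le_abs_self C
        _ ≤ _ := by gcongr; exact h1.2
    have h5 : 2 * |C| * la k ≤ ((ee k : ℝ) - 1) * la k := by gcongr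
    have h6 : 0 ≤ |C| * la k := by positivity
    linarith

end Pool.Agent.W174.SG
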